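import Pool.Agent.W619.Y.Stm5
import Pool.Agent.W479.PG.Fib

/-! Sections of `m K + j A` restricted to the generic curve `F` over `M` (part FIBJ). -/

set_option autoImplicit false
set_option linter.overlappingInstances false
set_option linter.unusedSectionVars false

universe u v

open Polynomial FF IntermediateField Pool.Agent.W619.PQ Pool.Agent.W619.PL Pool.Agent.W619.TW
  Pool.Agent.W603.LV Pool.Agent.W479.PG

namespace Pool.Agent.W125.PG.FibJ

section

variable {k L : Type*} [Field k] [Field L] [Algebra k L] [CharZero k] [IsAlgClosed k]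
  {M F : IntermediateField k L}

section

variable [IsFF k F] {d : ℕ} {y : Fin d → M} {E : Fin (d + 1) → Derivation k L L}
  {δ : Derivation k F F} {dM : Fin d → Derivation k M M}

/-- The local bound. -/
theorem local1J (h : Cur M F) (hy : AlgebraicIndependent k y)
    (hEM : ∀ l (z : M), E (Fin.succ l) (z : L) = (dM l z : L))
    (hEF : ∀ l : Fin d, ∀ β : F, E l.succ (β : L) = 0) (hE0 : ∀ μ : M, E 0 (μ : L) = 0)
    (hEδ : ∀ β : F, E 0 (β : L) = (δ β : L)) (hδ : δ ≠ 0) {S : Finset L} {m j : ℕ}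
    {ω : (Fin (d + 1) → Derivation k L L) → L} (hω : IsSec k L (d + 1) (fun _ => False) S m j ω)
    (w : Place M L) (c : ℤ)
    (hc : ((∀ β : F, w.ord (β : L) = 0) ∧ c = 0) ∨
      ∃ q : Place k F, (∀ β : F, w.ord (β : L) = q.ord β) ∧ c = vo q δ) :
    ω E = 0 ∨ ∃ s ∈ S, s ≠ 0 ∧ m * c + j * w.ord s ≤ w.ord (ω E) := by
  classical
  have hdiv := divisorial1 hy w
  rcases hc with ⟨htriv, rfl⟩ | ⟨q, hq, rfl⟩
  · have hall : ∀ l, Pres (rk w) (E l) := by
      intro l
      refine Fin.cases ?_ (fun l => ?_) l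
      · exact pres_zero_triv h hE0 hEδ w htriv
      · exact pres_succ h hEM hEF w l
    rcases hω.2.1 (rk w) hdiv (fun h => h) E hall with h1 | ⟨s, hs, hs0, h1⟩
    · exact Or.inl h1
    · refine Or.inr ⟨s, hs, hs0, ?_⟩
      change (j : ℤ) * w.ord s ≤ w.ord (ω E) at h1
      rw [mul_zero, zero_add]; exact h1
  · obtain ⟨t, ht0, ht⟩ := q.surj
    have hDt := der_pi_ne_zero hδ q ht
    have hDt' : ((δ t : F) : L) ≠ 0 := fun h => hDt (Subtype.ext h)
    have hvo : w.ord ((δ t : F) : L) = vo q δ := by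
      rw [hq]; exact vo_eq q ht hδ
    have hall : ∀ l, Pres (rk w)
        ((fun l => if l = 0 then ((δ t : F) : L)⁻¹ • E l else E l) l) := by
      intro l
      refine Fin.cases ?_ (fun l => ?_) l
      · simp only [if_true]
        exact pres_zero_over h hE0 hEδ hδ w q hq ht
      · simp only [if_neg (Fin.succ_ne_zero l)]
        exact pres_succ h hEM hEF w l
    have h1 := hω.2.1 (rk w) hdiv (fun h => h) _ hall
    rw [pluri_scaled hω.1 E 0 (((δ t : F) : L)⁻¹)] at h1
    by_cases h0 : ω E = 0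
    · exact Or.inl h0
    right
    rcases h1 with h1 | ⟨s, hs, hs0, h1⟩
    · exact absurd h1 (mul_ne_zero (pow_ne_zero _ (inv_ne_zero hDt')) h0)
    refine ⟨s, hs, hs0, ?_⟩
    change (j : ℤ) * w.ord s ≤ w.ord (((δ t : F) : L)⁻¹ ^ m * ω E) at h1
    rw [w.ord_mul (pow_ne_zero _ (inv_ne_zero hDt')) h0, w.ord_pow,
      w.ord_inv, hvo] at h1
    linarith

end

end

theorem main : Pool.Agent.W619.Y.S_FIBJ.{u, v} := by
  intro k L _ _ _ _ _ M F _ d hM hL hsup y hy t ht E hE0 hEt hEF hEy S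
  classical
  have hcur : Cur M F := cur_of hM hL hsup
  -- the derivation of `F`
  obtain ⟨δ, hδ, hδt⟩ := exists_ddx ht
  have hEδ : ∀ β : F, E 0 (β : L) = (δ β : L) := by
    intro β
    obtain ⟨r, hr1, hr2⟩ := ratio' (K := L) ht β
    have h1 := hr1 δ
    rw [hδt, mul_one] at h1
    have h2 := hr2 (E 0)
    change E 0 (β : L) = (r : L) * E 0 (t : L) at h2
    rw [hEt, mul_one] at h2
    rw [h2, h1]
  -- the derivations of `M`
  choose dM hdM using fun l => exists_dual y hy l
  have hEM : ∀ l (z : M), E (Fin.succ l) (z : L) = (dM l z : L) := by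
    intro l z
    refine der_comp (dM l) (E l.succ) y hy (fun j => ?_) z
    change E l.succ (y j : L) = ((dM l (y j) : M) : L)
    rw [hEy, hdM]
    by_cases h : j = l
    · subst h; simp
    · rw [if_neg h, if_neg (fun h' => h h'.symm)]; simp
  obtain ⟨b0, -, hb0, hbS⟩ := exists_den1 hcur S
  obtain ⟨C, hC, hCdeg⟩ := exists_C1 hδ
  have hA : ∀ s : L, ∃ A : Place k F →₀ ℤ, 0 ≤ A ∧ (s ∈ S → ∀ (w : Place M L)
      (q : Place k F), (∀ β : F, w.ord (β : L) = q.ord β) → Ge w (-A q) (b0 * s)) := by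
    intro s
    by_cases hs : s ∈ S
    · obtain ⟨A, hA, h⟩ := (bound_RR (hbS s hs)).2
      exact ⟨A, hA, fun _ => h⟩
    · exact ⟨0, le_rfl, fun h => absurd h hs⟩
  choose A hA0 hA using hA
  refine ⟨b0, (ddeg (∑ s ∈ S, A s)).toNat, hb0, fun m j => ?_⟩
  set D : Place k F →₀ ℤ := m • C + j • ∑ s ∈ S, A s with hD
  refine ⟨LL D, inferInstance, ?_, fun ω hω => ?_⟩
  · have h1 := finrank_LL_le D
    have h2 : ddeg D = m * canDeg k F + j * ddeg (∑ s ∈ S, A s) := by
      rw [hD, ddeg_add, ddeg_nsmul, ddeg_nsmul, hCdeg]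
    rw [h2] at h1
    have h3 : (j : ℤ) * ddeg (∑ s ∈ S, A s) ≤ j * (ddeg (∑ s ∈ S, A s)).toNat :=
      mul_le_mul_of_nonneg_left (Int.self_le_toNat _) (by positivity)
    generalize (m : ℤ) * canDeg k F = X at h1 ⊢
    generalize (j : ℤ) * ddeg (∑ s ∈ S, A s) = Y at h1 h3
    generalize (j : ℤ) * ((ddeg (∑ s ∈ S, A s)).toNat : ℤ) = Z at h3 ⊢
    omega
  · have hloc : ∀ (w : Place M L) (c : ℤ) (N : ℤ),
        (((∀ β : F, w.ord (β : L) = 0) ∧ c = 0) ∨
        ∃ q : Place k F, (∀ β : F, w.ord (β : L) = q.ord β) ∧ c = vo q δ) →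
        (∀ s ∈ S, s ≠ 0 → N ≤ m * c + j * w.ord (b0 * s)) → Ge w N (b0 ^ j * ω E) := by
      intro w c N hc hN
      rcases local1J hcur hy.1 hEM hEF hE0 hEδ hδ hω w c hc with h | ⟨s, hs, hs0, h⟩
      · left; rw [h, mul_zero]
      · by_cases h0 : ω E = 0
        · left; rw [h0, mul_zero]
        right
        have h1 := hN s hs hs0
        rw [w.ord_mul hb0 hs0] at h1
        rw [w.ord_mul (pow_ne_zero _ hb0) h0, w.ord_pow]
        linarith
    obtain ⟨s, β, hs, hβ⟩ := hcur.mem_span D (b0 ^ j * ω E)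
      (fun w hw => hloc w 0 0 (Or.inl ⟨hw, rfl⟩) (by
        intro s hs hs0
        have h1 := (bound_RR (hbS s hs)).1 w hw
        have h2 := h1.resolve_left (mul_ne_zero hb0 hs0)
        have : (0 : ℤ) ≤ j * w.ord (b0 * s) := mul_nonneg (by positivity) h2
        linarith))
      (fun w q hw => hloc w (vo q δ) _ (Or.inr ⟨q, hw, rfl⟩) (by
        intro s hs hs0
        have h1 := hA s hs w q hw
        have h2 := h1.resolve_left (mul_ne_zero hb0 hs0)
        have h3 := Finset.single_le_sum (f := fun s => A s q) (fun s _ => hA0 s q) hs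
        have hDq : D q = m * C q + j * ∑ s ∈ S, A s q := by
          rw [hD, Finsupp.add_apply, Finsupp.smul_apply, Finsupp.smul_apply,
            Finsupp.finsetSum_apply, nsmul_eq_mul, nsmul_eq_mul]
        rw [hDq, hC]
        have h4 : -(∑ s ∈ S, A s q) ≤ w.ord (b0 * s) := by linarith
        have h5 := mul_le_mul_of_nonneg_left h4 (by positivity : (0 : ℤ) ≤ j)
        linarith))
    rw [hs]
    refine Submodule.sum_mem _ fun l hl => ?_
    have h1 : ((Module.Basis.ofVectorSpace k M l : M) : L) * (β l : L) =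
        (Module.Basis.ofVectorSpace k M l : M) • (β l : L) := by
      rw [Algebra.smul_def]; rfl
    rw [h1]
    exact Submodule.smul_mem _ _ (Submodule.subset_span ⟨β l, hβ l hl, rfl⟩)

end Pool.Agent.W125.PG.FibJ
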